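import Pool.Agent.H7.KR.Stmts
import Pool.Agent.H14.KQ.GLO

/-! Row GL2 of board kr: double counting. -/

set_option autoImplicit false

open Finset

namespace Pool.KR

open Pool.Agent.H23.KT Pool.Agent.H46.KW Pool.KQ

theorem gl2 (h1 : YSMStmt) : GL2Stmt := by
  intro V _ _ G p a
  have h := Pool.KQ.H14GLO.exch (G := G) (p + 3)
    (fun v L => (a : ℝ) + yy G p a (insert v L) v)
  unfold LS
  refine h.trans ?_
  have e : ∀ K ∈ clq G univ (p + 3 + 1),
      ∑ v ∈ K, ((a : ℝ) + yy G p a (insert v (K.erase v)) v) = ((p : ℝ) + 4) * a + (p + 2) := by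
    intro K hK
    have hc : K.card = p + 4 := ((mem_clq G).1 hK).2.1
    have e1 : ∀ v ∈ K, ((a : ℝ) + yy G p a (insert v (K.erase v)) v) =
        (a : ℝ) + yy G p a K v := by
      intro v hv
      rw [insert_erase hv]
    rw [sum_congr rfl e1, sum_add_distrib, sum_const, hc, (h1 G p a K hc).2.1, nsmul_eq_mul]
    push_cast
    ring
  rw [sum_congr rfl e, sum_const, ← kc_eq, nsmul_eq_mul, mul_comm]

end Pool.KR
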